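import Pool.Agent.H601_Pen.Anti

/-!
There is a minimal non-alternating bridgeless binary matroid that is graphic and cographic (planar); it is a
minor of the bond matroid `M₀` of the square antiprism, and it has no minor isomorphic to `F*`, `Pet` or `K₅*`.

The Penrose polynomial of `M₀` (16 elements, `r = 7`) is
`λ⁷ - 16 λ⁶ + 114 λ⁵ - 432 λ⁴ + 857 λ³ - 744 λ² + 60 λ + 160`, whose constant term has the wrong sign.
-/

namespace Pool.Agent.Results.MP_5bb8bc_co.PlanarMinNonAlt

open Pool.Agent.H601_Pen

theorem result : ∃ N : BM (Fin 16), N.MinNonAlt ∧ antiprism.IsMinor N ∧ N.Graphic ∧ N.Cographic ∧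
    ∀ N' : BM (Fin 16), N.IsMinor N' →
      ¬ N'.Iso fano.dual ∧ ¬ N'.Iso petersen ∧ ¬ N'.Iso k5.dual := by
  obtain ⟨N, hN, hmin⟩ := BM.exists_minNonAlt antiprism antiprism_bridgeless antiprism_not_alternating
  have hg := BM.IsMinor.graphic hN antiprism_graphic
  have hc := BM.IsMinor.cographic hN antiprism_cographic
  refine ⟨N, hmin, hN, hg, hc, fun N' hN' => ⟨fun h => ?_, fun h => ?_, fun h => ?_⟩⟩
  · exact fanoDual_not_cographic (h.cographic (hN'.cographic hc))
  · exact petersen_not_cographic (h.cographic (hN'.cographic hc))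
  · exact k5Dual_not_graphic (h.graphic (hN'.graphic hg))

end Pool.Agent.Results.MP_5bb8bc_co.PlanarMinNonAlt
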